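import Pool.Agent.Helper22.TW.Stmts

/-!
# TW, module CCL: the classes of `1 - 1/(a f)` are constant
-/

set_option autoImplicit false

namespace Pool.Agent.Helper22.TW

open Pool.Agent.Helper14.BSC Polynomial

theorem ccl_local (hRK : ST_RK) (hDENS : ST_DENS) (hTRA : ST_TRA) (hEXK : ST_EXK)
    (hORDP : ST_ORDP) (hPL : ST_PL) (hUNF : ST_UNF) {F k Ω : Type} [Field F] [Field k] [Field Ω]
    [Algebra F k] [Algebra k Ω] [CharZero F] [CharZero k] [IsAlgClosed Ω] {t : k} (hG : Gen F k t)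
    (hfg : (⊤ : IntermediateField ℚ F).FG) (D : Sec k Ω) (q : ℕ) [Fact q.Prime] (f : LL D)
    (hinf : InfAt (F := F) D q (f : Ω)) (a : k) (ha : a ≠ 0) (n : ℕ) (hn : 0 < n) (c : k)
    (g : LL D) (hu : 1 - (algebraMap k (LL D) a * f)⁻¹ = algebraMap k (LL D) c * g ^ n)
    (H B : F[X]) (hH : H ≠ 0) (hB : aeval t B ≠ 0) (hcH : c * (aeval t B) ^ n = aeval t H)
    (v : F) : n ∣ H.rootMultiplicity v := by
  obtain ⟨σ₀, E, hE, hσE, hdense⟩ := hDENS F hfg q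
  obtain ⟨u0, hu0, hord⟩ := hORDP F k t hG v H hH
  obtain ⟨ε, hε, hord⟩ := hord q σ₀
  obtain ⟨ϖ, hϖE, hϖ0, hϖ1, hϖ⟩ := hUNF q E hE
  obtain ⟨e1, e2, e3⟩ := hEXK F k t hG q E
  obtain ⟨M0, hM0⟩ := exists_pow_lt_of_lt_one hε hϖ1
  have hϖne : ϖ ≠ 0 := norm_pos_iff.1 hϖ0
  have key : ∀ M, M0 ≤ M → ∃ j : ℤ, ‖σ₀ u0‖ * (‖ϖ‖ ^ M) ^ (H.rootMultiplicity v) =
      (‖ϖ‖ ^ j) ^ n := by
    intro M hM
    obtain ⟨τ, hτE, -, hτ, hτT⟩ := hTRA F hfg q σ₀ E (σ₀ v) (ϖ ^ M) (hσE v) (pow_mem hϖE M)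
      (pow_ne_zero M hϖne) ∅ Set.countable_empty
    obtain ⟨σ, hσ1, hσ2⟩ := e3 σ₀ τ hτT
    have hσE' : ∀ x, σ x ∈ E := e1 σ (fun a => by rw [hσ1]; exact hσE a) (by rw [hσ2]; exact hτE)
    obtain ⟨P, -⟩ := hRK k Ω D q σ E hE hσE'
    have hd : DenseIn (σ.comp (algebraMap F k)) E := by
      intro z hz δ hδ
      obtain ⟨b, hb⟩ := hdense z hz δ hδ
      exact ⟨b, by rw [RingHom.comp_apply, hσ1]; exact hb⟩
    have hfP : f ∉ P.C := hinf σ E hE hσE' hd P f rfl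
    have ha' : algebraMap k (LL D) a * f ∉ P.C := by
      intro h
      apply hfP
      obtain ⟨hb, -⟩ := P.base a⁻¹
      have h2 := P.C.mul_mem _ _ hb h
      rwa [← mul_assoc, ← map_mul, inv_mul_cancel₀ ha, map_one, one_mul] at h2
    have hw : (algebraMap k (LL D) a * f)⁻¹ ∈ P.C := (P.C.mem_or_inv_mem _).resolve_left ha'
    have hφw : P.φ ⟨(algebraMap k (LL D) a * f)⁻¹, hw⟩ = 0 :=
      (P.ker _).2 (Or.inr (by
        show ((algebraMap k (LL D) a * f)⁻¹)⁻¹ ∉ P.C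
        rw [inv_inv]
        exact ha'))
    have hu1 : 1 - (algebraMap k (LL D) a * f)⁻¹ ∈ P.C := sub_mem P.C.one_mem hw
    have hφu : P.φ ⟨1 - (algebraMap k (LL D) a * f)⁻¹, hu1⟩ = 1 := by
      have h3 : (⟨1 - (algebraMap k (LL D) a * f)⁻¹, hu1⟩ : P.C) = 1 - ⟨_, hw⟩ := rfl
      rw [h3, map_sub, map_one, hφw, sub_zero]
    obtain ⟨w1, hw1E, hw10, hw1⟩ := (hPL k Ω D q σ E hE hσE' P).2 ⟨_, hu1⟩
      (by rw [hφu]; exact one_ne_zero) n hn c g hu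
    rw [hφu, one_mul] at hw1
    have hBne : σ (aeval t B) ≠ 0 := (_root_.map_ne_zero σ).2 hB
    obtain ⟨j, hj⟩ := hϖ (w1 * σ (aeval t B)) (mul_mem hw1E (hσE' _)) (mul_ne_zero hw10 hBne)
    have hn1 : ‖σ t - σ₀ v‖ = ‖ϖ‖ ^ M := by rw [hσ2, hτ, norm_pow]
    have hlt : ‖ϖ‖ ^ M < ε := lt_of_le_of_lt (pow_le_pow_of_le_one hϖ0.le hϖ1.le hM) hM0
    have h4 := hord σ hσ1 (by rw [hn1]; positivity) (by rw [hn1]; exact hlt)
    rw [hn1] at h4
    refine ⟨j, ?_⟩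
    rw [← h4, ← hj, ← norm_pow, mul_pow, ← hw1, ← map_pow, ← map_mul, hcH]
  obtain ⟨j0, h0⟩ := key M0 le_rfl
  obtain ⟨j1, h1⟩ := key (M0 + 1) (Nat.le_succ M0)
  set m := H.rootMultiplicity v with hm
  have h2 : ‖ϖ‖ ^ ((m : ℤ) + j0 * n) = ‖ϖ‖ ^ (j1 * n) := by
    rw [zpow_add₀ hϖ0.ne', zpow_mul, zpow_mul, zpow_natCast, zpow_natCast, zpow_natCast, ← h0, ← h1]
    ring
  have h3 : (m : ℤ) + j0 * n = j1 * n := zpow_right_injective₀ hϖ0 hϖ1.ne h2
  have h4 : (n : ℤ) ∣ (m : ℤ) := ⟨j1 - j0, by linear_combination h3⟩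
  exact Int.natCast_dvd_natCast.1 h4

theorem st_CCL (hKUM : ST_KUM) (hBOT : ST_BOT) (hRK : ST_RK) (hDENS : ST_DENS) (hTRA : ST_TRA)
    (hEXK : ST_EXK) (hORDP : ST_ORDP) (hFRAC : ST_FRAC) (hPL : ST_PL) (hNPW : ST_NPW)
    (hUNF : ST_UNF) : ST_CCL := by
  intro F k Ω _ _ _ _ _ _ _ _ _ _ _ t hG hfg D q _ f hf hB a ha n hn
  have ha' : algebraMap k (LL D) a ≠ 0 := (_root_.map_ne_zero _).2 ha
  have hu0 : 1 - (algebraMap k (LL D) a * f)⁻¹ ≠ 0 := by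
    intro h
    have h1 : (algebraMap k (LL D) a * f)⁻¹ = 1 := (sub_eq_zero.1 h).symm
    have h2 : algebraMap k (LL D) a * f = 1 := inv_eq_one.1 h1
    apply hf a⁻¹
    rw [map_inv₀]
    exact eq_inv_of_mul_eq_one_right h2
  obtain ⟨c, hc, y, hy, hu⟩ := hKUM k Ω D ∅ n hn _ hu0
  obtain ⟨c0, hc0⟩ := hBOT k Ω (c : Acl k Ω) c.2
  have hinc : inc D ∅ c = algebraMap k (LL D) c0 := by
    apply Subtype.ext
    rw [coe_inc, hc0]
    rfl
  rw [hinc] at hu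
  have hc00 : c0 ≠ 0 := by
    rintro rfl
    apply hu0
    rw [hu, map_zero, zero_mul]
  obtain ⟨A, B0, hB0, hB0t, hcf⟩ := hFRAC F k t hG c0
  have hA : A ≠ 0 := by
    rintro rfl
    apply hc00
    rw [hcf, map_zero, zero_div]
  have hH : A * B0 ^ (n - 1) ≠ 0 := mul_ne_zero hA (pow_ne_zero _ hB0)
  have hcH : c0 * (aeval t B0) ^ n = aeval t (A * B0 ^ (n - 1)) := by
    obtain ⟨m, rfl⟩ : ∃ m, n = m + 1 := ⟨n - 1, by omega⟩
    rw [Nat.add_sub_cancel, map_mul, map_pow, hcf, pow_succ]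
    field_simp
  have hdvd : ∀ v : Ω, n ∣ ((A * B0 ^ (n - 1)).map (algebraMap F Ω)).rootMultiplicity v := by
    intro v
    by_cases halg : IsAlgebraic F v
    · obtain ⟨B, ⟨v', hv'⟩, hinf⟩ := hB v halg
      have hcomp : B.j.comp (algebraMap F k) = (algebraMap B.F' B.k').comp B.i := by
        ext x
        apply (algebraMap B.k' Ω).injective
        rw [RingHom.comp_apply, RingHom.comp_apply, B.hj, ← IsScalarTower.algebraMap_apply,
          ← IsScalarTower.algebraMap_apply, B.hi]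
      have haev : ∀ G : F[X], B.j (aeval t G) = aeval B.t' (G.map B.i) := by
        intro G
        rw [aeval_def, aeval_def, hom_eval₂, eval₂_map, B.ht, hcomp]
      have hmem : ∀ x : LL D, (x : Ω) ∈ LL B.D' := fun x g _ =>
        B.fix x (fun g => x.2 g fun b hb => absurd hb (Set.notMem_empty b)) g
      have hcomp2 : (algebraMap B.F' Ω).comp B.i = algebraMap F Ω := by
        ext x
        exact B.hi x
      have hu' : 1 - (algebraMap B.k' (LL B.D') (B.j a) * (⟨(f : Ω), hmem f⟩ : LL B.D'))⁻¹ =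
          algebraMap B.k' (LL B.D') (B.j c0) * (⟨(y : Ω), hmem y⟩ : LL B.D') ^ n := by
        apply Subtype.ext
        have h1 := congrArg (fun z : LL D => (z : Ω)) hu
        show 1 - (algebraMap B.k' Ω (B.j a) * (f : Ω))⁻¹ = algebraMap B.k' Ω (B.j c0) * (y : Ω) ^ n
        rw [B.hj, B.hj]
        exact h1
      have hH' : (A * B0 ^ (n - 1)).map B.i ≠ 0 := (Polynomial.map_ne_zero_iff B.i.injective).2 hH
      have hBt' : aeval B.t' (B0.map B.i) ≠ 0 := by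
        rw [← haev]
        exact (_root_.map_ne_zero B.j).2 hB0t
      have hcH' : B.j c0 * (aeval B.t' (B0.map B.i)) ^ n =
          aeval B.t' ((A * B0 ^ (n - 1)).map B.i) := by
        rw [← haev, ← haev, ← hcH, map_mul, map_pow]
      have h5 := ccl_local hRK hDENS hTRA hEXK hORDP hPL hUNF B.gen B.fg B.D' q
        (⟨(f : Ω), hmem f⟩ : LL B.D') hinf (B.j a) ((_root_.map_ne_zero B.j).2 ha) n hn (B.j c0) _ hu' _ _
        hH' hBt' hcH' v'
      rw [← hv', ← hcomp2, ← Polynomial.map_map,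
        ← Polynomial.eq_rootMultiplicity_map (algebraMap B.F' Ω).injective]
      exact h5
    · have h6 : ((A * B0 ^ (n - 1)).map (algebraMap F Ω)).rootMultiplicity v = 0 := by
        apply Polynomial.rootMultiplicity_eq_zero
        intro hroot
        apply halg
        refine ⟨A * B0 ^ (n - 1), hH, ?_⟩
        rw [IsRoot.def, eval_map_algebraMap] at hroot
        exact hroot
      rw [h6]
      exact dvd_zero n
  obtain ⟨γ, Q, hγ, hQ⟩ := hNPW F Ω n hn _ hH hdvd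
  refine ⟨γ, algebraMap k (LL D) (aeval t Q / aeval t B0) * y, hγ, ?_⟩
  have hc1 : c0 = algebraMap F k γ * (aeval t Q / aeval t B0) ^ n := by
    have h7 : c0 * (aeval t B0) ^ n = algebraMap F k γ * (aeval t Q) ^ n := by
      rw [hcH, hQ, map_mul, map_pow, aeval_C]
    rw [div_pow]
    field_simp
    exact h7
  rw [hu, mul_pow, ← map_pow, ← mul_assoc, ← map_mul, ← hc1]

end Pool.Agent.Helper22.TW
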